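import Pool.Agent.Helper67_MT.Sym
import Pool.Agent.Helper26_MT100.Krn
import Pool.Agent.Helper5_MT100.Gcl

/-! MT100, module SYS: symmetric squares and tensor products of systems. -/

set_option autoImplicit false

namespace Pool.Agent.MT100.H83

open Matrix Pool.Agent.MT100

/-! ### The polarization of the symmetric square -/

section pol

variable {r : ℕ} {R : Type} [CommRing R]

/-- the polarization of `sy` -/
def ps (A B : Matrix (Fin r) (Fin r) R) : Matrix (SI r) (SI r) R :=
  fun β α => A β.1.1 α.1.1 * B β.1.2 α.1.2 + B β.1.1 α.1.1 * A β.1.2 α.1.2 +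
    if α.1.1 < α.1.2 then A β.1.1 α.1.2 * B β.1.2 α.1.1 + B β.1.1 α.1.2 * A β.1.2 α.1.1 else 0

theorem ps_eq (A B : Matrix (Fin r) (Fin r) R) : ps A B = sy (A + B) - sy A - sy B := by
  ext β α
  simp only [ps, sy, Matrix.add_apply, Matrix.sub_apply]
  split_ifs <;> ring

theorem ps_mul_left (M A B : Matrix (Fin r) (Fin r) R) : ps (M * A) (M * B) = sy M * ps A B := by
  rw [ps_eq, ps_eq, ← mul_add, H67.sy_mul, H67.sy_mul, H67.sy_mul, mul_sub, mul_sub]

theorem ps_mul_right (M A B : Matrix (Fin r) (Fin r) R) : ps (A * M) (B * M) = ps A B * sy M := by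
  rw [ps_eq, ps_eq, ← add_mul, H67.sy_mul, H67.sy_mul, H67.sy_mul, sub_mul, sub_mul]

theorem ps_smul (c : R) (A B : Matrix (Fin r) (Fin r) R) : ps (c • A) B = c • ps A B := by
  ext β α
  simp only [ps, Matrix.smul_apply, smul_eq_mul]
  split_ifs <;> ring

theorem ps_sub (A A' B : Matrix (Fin r) (Fin r) R) : ps (A - A') B = ps A B - ps A' B := by
  ext β α
  simp only [ps, Matrix.sub_apply]
  split_ifs <;> ring

theorem ps_add_left (A A' B : Matrix (Fin r) (Fin r) R) : ps (A + A') B = ps A B + ps A' B := by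
  ext β α
  simp only [ps, Matrix.add_apply]
  split_ifs <;> ring

theorem ps_comm (A B : Matrix (Fin r) (Fin r) R) : ps A B = ps B A := by
  ext β α
  simp only [ps]
  split_ifs <;> ring

theorem ps_zero (A : Matrix (Fin r) (Fin r) R) : ps 0 A = 0 := by
  ext β α
  simp [ps]

theorem ps_map {R' : Type} [CommRing R'] (f : R →+* R') (A B : Matrix (Fin r) (Fin r) R) :
    ps (A.map f) (B.map f) = (ps A B).map f := by
  ext β α
  simp only [ps, Matrix.map_apply, map_add, map_mul]
  split_ifs <;> simp

/-- `ps A B * ps M 1 = ps (A M) B + ps A (B M)` -/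
theorem ps_mul_ps (A B M : Matrix (Fin r) (Fin r) R) :
    ps A B * ps M 1 = ps (A * M) B + ps A (B * M) := by
  have h1 : ps M 1 = sy (M + 1) - sy M - sy 1 := ps_eq M 1
  rw [h1, mul_sub, mul_sub, ← ps_mul_right, ← ps_mul_right, ← ps_mul_right, mul_add, mul_add,
    mul_one, mul_one, ps_add_left, ps_comm (A * M) (B * M + B), ps_comm A (B * M + B), ps_add_left,
    ps_add_left, ps_comm (B * M) (A * M), ps_comm B (A * M), ps_comm (B * M) A, ps_comm B A]
  abel

theorem sy_mul_ps (H N : Matrix (Fin r) (Fin r) R) : ps (H * N) H = sy H * ps N 1 := by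
  rw [← ps_mul_left, mul_one]

theorem ps_mul_sy (B H : Matrix (Fin r) (Fin r) R) : ps (B * H) H = ps B 1 * sy H := by
  rw [← ps_mul_right, one_mul]

theorem ps_nil {N : Matrix (Fin r) (Fin r) ℤ} (h : IsNilpotent N) : IsNilpotent (ps N 1) := by
  obtain ⟨s, hs⟩ := h
  have key : ∀ k i j : ℕ, 2 * s ≤ i + j + k → ps (N ^ i) (N ^ j) * (ps N 1) ^ k = 0 := by
    intro k
    induction k with
    | zero =>
      intro i j hij
      rw [pow_zero, mul_one]
      rcases le_or_gt s i with h | h
      · rw [pow_eq_zero_of_le h hs, ps_zero]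
      · rw [pow_eq_zero_of_le (show s ≤ j by omega) hs, ps_comm, ps_zero]
    | succ k ih =>
      intro i j hij
      rw [pow_succ', ← mul_assoc, ps_mul_ps, add_mul, ← pow_succ, ← pow_succ,
        ih (i + 1) j (by omega), ih i (j + 1) (by omega), add_zero]
  refine ⟨2 * s, ?_⟩
  have h1 := key (2 * s) 0 0 (by omega)
  rw [pow_zero] at h1
  have h2 : ps (1 : Matrix (Fin r) (Fin r) ℤ) 1 = (2 : ℤ) • 1 := by
    have h3 : sy ((2 : ℤ) • (1 : Matrix (Fin r) (Fin r) ℤ)) = (4 : ℤ) • sy 1 := by
      ext β α
      simp only [sy, Matrix.smul_apply, smul_eq_mul]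
      split_ifs <;> ring
    rw [ps_eq, ← two_smul ℤ (1 : Matrix (Fin r) (Fin r) ℤ), h3, H67.sym.2.1 r ℤ]
    module
  rw [h2, smul_mul_assoc, one_mul] at h1
  ext i j
  have h4 := congrFun (congrFun h1 i) j
  rw [Matrix.smul_apply, Matrix.zero_apply, smul_eq_mul] at h4
  rcases mul_eq_zero.1 h4 with h5 | h5
  · norm_num at h5
  · rw [h5, Matrix.zero_apply]

end pol

theorem dv_mul' (f g : PowerSeries ℚ) : dv (f * g) = dv f * g + f * dv g := by
  have h2 := (PowerSeries.derivative ℚ).leibniz f g
  rw [smul_eq_mul, smul_eq_mul] at h2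
  change PowerSeries.derivative ℚ (f * g) = PowerSeries.derivative ℚ f * g +
    f * PowerSeries.derivative ℚ g
  rw [h2]
  ring

theorem dv_sy {r : ℕ} (H : Matrix (Fin r) (Fin r) (PowerSeries ℚ)) :
    (sy H).map dv = ps (H.map dv) H := by
  ext1 β α
  rw [Matrix.map_apply]
  simp only [ps, sy, Matrix.map_apply]
  have h1 : ∀ f g : PowerSeries ℚ, dv (f + g) = dv f + dv g :=
    fun f g => map_add (PowerSeries.derivative ℚ) f g
  rw [h1, dv_mul']
  split_ifs with h
  · rw [dv_mul']
  · have h2 : dv (0 : PowerSeries ℚ) = 0 := map_zero (PowerSeries.derivative ℚ)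
    rw [h2]

/-- polynomials as power series, a ring homomorphism -/
noncomputable def zpH : Polynomial ℤ →+* PowerSeries ℚ :=
  (Polynomial.coeToPowerSeries.ringHom (R := ℚ)).comp (Polynomial.mapRingHom (Int.castRingHom ℚ))

theorem zpH_apply (p : Polynomial ℤ) : zpH p = zp p := rfl

/-- integers as power series -/
theorem cast_eq : (fun x : ℤ => (x : PowerSeries ℚ)) = Int.castRingHom (PowerSeries ℚ) := rfl

theorem gsys_sy {r : ℕ} {H K : Matrix (Fin r) (Fin r) (PowerSeries ℚ)}
    {N : Matrix (Fin r) (Fin r) ℤ} {q : Polynomial ℤ} {B : Matrix (Fin r) (Fin r) (Polynomial ℤ)}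
    (h : GSys H K N q B) : GSys (sy H) (sy K) (ps N 1) q (ps B 1) := by
  have hg := Helper5_MT100.gcl
  have gsy : ∀ M : Matrix (Fin r) (Fin r) (PowerSeries ℚ), (∀ i j, GType (M i j)) →
      ∀ i j, GType (sy M i j) := by
    intro M hM i j
    simp only [sy]
    apply hg.2.1
    · exact hg.2.2.2.1 _ _ (hM _ _) (hM _ _)
    · split_ifs
      · exact hg.2.2.2.1 _ _ (hM _ _) (hM _ _)
      · have h0 := hg.1 0
        rwa [Polynomial.coe_zero] at h0
  refine ⟨?_, ?_, ps_nil h.nil, h.q0, ?_, gsy H h.gH, gsy K h.gK⟩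
  · rw [← H67.sy_mul, h.inv, H67.sym.2.1 r]
  · intro i j
    have h1 : H.map PowerSeries.constantCoeff = 1 := by
      ext a b
      rw [Matrix.map_apply, h.one, Matrix.one_apply]
    have h2 : (sy H).map PowerSeries.constantCoeff = 1 := by
      rw [← H67.sym.2.2.1, h1, H67.sym.2.1]
    have h3 := congrFun (congrFun h2 i) j
    rw [Matrix.map_apply, Matrix.one_apply] at h3
    exact h3
  · have h1 : (ps B 1).map zp = ps (B.map zp) 1 := by
      have h2 := ps_map zpH B 1
      rw [Matrix.map_one _ (map_zero _) (map_one _)] at h2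
      exact h2.symm
    have h2 : (ps N 1).map (fun x : ℤ => (x : PowerSeries ℚ)) =
        ps (N.map (fun x : ℤ => (x : PowerSeries ℚ))) 1 := by
      have h2 := ps_map (Int.castRingHom (PowerSeries ℚ)) N 1
      rw [Matrix.map_one _ (map_zero _) (map_one _)] at h2
      exact h2.symm
    rw [dv_sy, h1, h2, ← sy_mul_ps, ← ps_mul_sy, ← ps_smul, ← ps_smul, ← ps_sub, h.ode]

/-! ### Tensor products -/

section kr

variable {ι m : Type} [Fintype ι] [Fintype m] [DecidableEq ι] [DecidableEq m] {R : Type} [CommRing R]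

theorem kr_mul (A A' : ι → Matrix m m R) : kr (fun s => A s * A' s) = kr A * kr A' :=
  Helper26_MT100.krn.1 ι m R A A'

theorem kr_update_apply (H : ι → Matrix m m R) (s : ι) (A : Matrix m m R) (β α : ι → m) :
    kr (Function.update H s A) β α =
      A (β s) (α s) * ∏ t ∈ Finset.univ.erase s, H t (β t) (α t) := by
  unfold kr
  rw [← Finset.mul_prod_erase Finset.univ _ (Finset.mem_univ s), Function.update_self]
  congr 1
  refine Finset.prod_congr rfl fun t ht => ?_
  rw [Function.update_of_ne (Finset.ne_of_mem_erase ht)]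

/-- the derivation of `kr` -/
def kd (H : ι → Matrix m m R) (A : ι → Matrix m m R) : Matrix (ι → m) (ι → m) R :=
  ∑ s, kr (Function.update H s (A s))

theorem kd_smul (H : ι → Matrix m m R) (c : R) (A : ι → Matrix m m R) :
    kd H (fun s => c • A s) = c • kd H A := by
  unfold kd
  rw [Finset.smul_sum]
  refine Finset.sum_congr rfl fun s _ => ?_
  ext β α
  rw [Matrix.smul_apply, kr_update_apply, kr_update_apply]
  beta_reduce
  rw [Matrix.smul_apply, smul_eq_mul, smul_eq_mul, mul_assoc]

theorem kd_sub (H : ι → Matrix m m R) (A A' : ι → Matrix m m R) :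
    kd H (fun s => A s - A' s) = kd H A - kd H A' := by
  unfold kd
  rw [← Finset.sum_sub_distrib]
  refine Finset.sum_congr rfl fun s _ => ?_
  ext β α
  rw [Matrix.sub_apply, kr_update_apply, kr_update_apply, kr_update_apply]
  beta_reduce
  rw [Matrix.sub_apply, sub_mul]

theorem kd_mul_left (H A : ι → Matrix m m R) :
    kd H (fun s => A s * H s) = kd (fun _ => 1) A * kr H := by
  unfold kd
  rw [Finset.sum_mul]
  refine Finset.sum_congr rfl fun s _ => ?_
  rw [← kr_mul]
  congr 1
  funext t
  by_cases h : t = s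
  · subst h
    rw [Function.update_self, Function.update_self]
  · rw [Function.update_of_ne h, Function.update_of_ne h, one_mul]

theorem kd_mul_right (H A : ι → Matrix m m R) :
    kd H (fun s => H s * A s) = kr H * kd (fun _ => 1) A := by
  unfold kd
  rw [Finset.mul_sum]
  refine Finset.sum_congr rfl fun s _ => ?_
  rw [← kr_mul]
  congr 1
  funext t
  by_cases h : t = s
  · subst h
    rw [Function.update_self, Function.update_self]
  · rw [Function.update_of_ne h, Function.update_of_ne h, mul_one]

theorem kd_map {R' : Type} [CommRing R'] (f : R →+* R') (A : ι → Matrix m m R) :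
    kd (fun _ => 1) (fun s => (A s).map f) = (kd (fun _ => 1) A).map f := by
  unfold kd
  ext β α
  rw [Matrix.map_apply, Matrix.sum_apply, Matrix.sum_apply, map_sum]
  refine Finset.sum_congr rfl fun s _ => ?_
  rw [kr_update_apply, kr_update_apply, map_mul]
  beta_reduce
  rw [Matrix.map_apply, map_prod]
  congr 1
  refine Finset.prod_congr rfl fun t _ => ?_
  rw [Matrix.one_apply, Matrix.one_apply]
  split_ifs
  · rw [map_one]
  · rw [map_zero]

theorem kd_nil (N : ι → Matrix m m R) (h : ∀ s, IsNilpotent (N s)) :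
    IsNilpotent (kd (fun _ => 1) N) := by
  unfold kd
  have hc : ∀ (s : ι) (A : Matrix m m R) (k : ℕ),
      kr (Function.update (fun _ : ι => (1 : Matrix m m R)) s A) ^ k =
        kr (Function.update (fun _ : ι => (1 : Matrix m m R)) s (A ^ k)) := by
    intro s A k
    induction k with
    | zero =>
      rw [pow_zero, pow_zero, ← Helper26_MT100.krn.2.1 ι m R]
      congr 1
      funext t
      by_cases h : t = s
      · subst h
        rw [Function.update_self]
      · rw [Function.update_of_ne h]
    | succ k ih =>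
      rw [pow_succ, ih, ← kr_mul]
      congr 1
      funext t
      by_cases h : t = s
      · subst h
        rw [Function.update_self, Function.update_self, Function.update_self, pow_succ]
      · rw [Function.update_of_ne h, Function.update_of_ne h, Function.update_of_ne h, mul_one]
  refine Commute.isNilpotent_sum ?_ ?_
  · intro s _
    obtain ⟨k, hk⟩ := h s
    refine ⟨k, ?_⟩
    rw [hc, hk]
    ext β α
    rw [kr_update_apply, Matrix.zero_apply, zero_mul, Matrix.zero_apply]
  · intro s t _ _
    by_cases hst : s = t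
    · subst hst
      exact Commute.refl _
    · change _ * _ = _ * _
      rw [← kr_mul, ← kr_mul]
      congr 1
      funext x
      by_cases h1 : x = s
      · subst h1
        rw [Function.update_self, Function.update_of_ne hst, mul_one, one_mul]
      · rw [Function.update_of_ne h1]
        by_cases h2 : x = t
        · subst h2
          rw [Function.update_self, mul_one, one_mul]
        · rw [Function.update_of_ne h2]

end kr

theorem dv_prod {ι : Type} [DecidableEq ι] (s : Finset ι) (f : ι → PowerSeries ℚ) :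
    dv (∏ i ∈ s, f i) = ∑ i ∈ s, dv (f i) * ∏ j ∈ s.erase i, f j := by
  induction s using Finset.induction_on with
  | empty =>
    rw [Finset.prod_empty, Finset.sum_empty]
    exact (PowerSeries.derivative ℚ).map_one_eq_zero
  | insert a s ha ih =>
    rw [Finset.prod_insert ha, dv_mul', ih, Finset.sum_insert ha, Finset.erase_insert ha,
      Finset.mul_sum]
    congr 1
    refine Finset.sum_congr rfl fun i hi => ?_
    have h1 : (insert a s).erase i = insert a (s.erase i) :=
      Finset.erase_insert_of_ne (fun h => ha (h ▸ hi))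
    rw [h1, Finset.prod_insert (fun h => ha (Finset.mem_of_mem_erase h))]
    ring

theorem dv_kr {ι m : Type} [Fintype ι] [Fintype m] [DecidableEq ι] [DecidableEq m]
    (H : ι → Matrix m m (PowerSeries ℚ)) : (kr H).map dv = kd H fun s => (H s).map dv := by
  ext1 β α
  rw [Matrix.map_apply]
  unfold kd
  rw [Matrix.sum_apply]
  change dv (∏ s, H s (β s) (α s)) = _
  rw [dv_prod]
  refine Finset.sum_congr rfl fun s _ => ?_
  rw [kr_update_apply]
  beta_reduce
  rw [Matrix.map_apply]

theorem gsys_kr {ι m : Type} [Fintype ι] [Fintype m] [DecidableEq ι] [DecidableEq m]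
    {H K : ι → Matrix m m (PowerSeries ℚ)} {N : ι → Matrix m m ℤ} {q : ι → Polynomial ℤ}
    {B : ι → Matrix m m (Polynomial ℤ)} (h : ∀ s, GSys (H s) (K s) (N s) (q s) (B s)) :
    GSys (kr H) (kr K) (kd (fun _ => 1) N) (∏ s, q s)
      (kd (fun _ => 1) fun s => (∏ t ∈ Finset.univ.erase s, q t) • B s) := by
  have hg := Helper5_MT100.gcl
  refine ⟨?_, ?_, kd_nil N fun s => (h s).nil, Finset.prod_ne_zero_iff.2 fun s _ => (h s).q0, ?_,
    fun i j => hg.2.2.2.2.2 ι _ _ fun s _ => (h s).gH _ _,
    fun i j => hg.2.2.2.2.2 ι _ _ fun s _ => (h s).gK _ _⟩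
  · rw [← kr_mul]
    have h1 : (fun s => H s * K s) = fun _ => (1 : Matrix m m (PowerSeries ℚ)) :=
      funext fun s => (h s).inv
    rw [h1]
    exact Helper26_MT100.krn.2.1 ι m _
  · intro i j
    have h1 : (fun s => (H s).map (PowerSeries.constantCoeff (R := ℚ))) = fun _ => 1 := by
      funext s
      ext a b
      rw [Matrix.map_apply, (h s).one, Matrix.one_apply]
    have h2 : (kr H).map (PowerSeries.constantCoeff (R := ℚ)) = 1 := by
      rw [← Helper26_MT100.krn.2.2 ι m, h1, Helper26_MT100.krn.2.1 ι m]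
    have h3 := congrFun (congrFun h2 i) j
    rw [Matrix.map_apply, Matrix.one_apply] at h3
    exact h3
  · have hode : ∀ s, (zp (∏ t, q t) * PowerSeries.X) • (H s).map dv =
        ((∏ t ∈ Finset.univ.erase s, q t) • B s).map zp * H s -
          zp (∏ t, q t) • (H s * (N s).map (fun x : ℤ => (x : PowerSeries ℚ))) := by
      intro s
      have e1 : zp (∏ t, q t) = zp (∏ t ∈ Finset.univ.erase s, q t) * zp (q s) := by
        rw [← zpH_apply, ← zpH_apply, ← zpH_apply, ← map_mul, mul_comm,
          Finset.mul_prod_erase _ _ (Finset.mem_univ s)]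
      have e2 : ((∏ t ∈ Finset.univ.erase s, q t) • B s).map zp =
          zp (∏ t ∈ Finset.univ.erase s, q t) • (B s).map zp := by
        ext1 i j
        rw [Matrix.map_apply, Matrix.smul_apply, Matrix.smul_apply, Matrix.map_apply, smul_eq_mul,
          smul_eq_mul, ← zpH_apply, map_mul]
        rfl
      rw [e1, e2, mul_assoc, mul_smul, (h s).ode, smul_sub, Matrix.smul_mul, mul_smul]
    have h1 : (kd (fun _ => 1) fun s => (∏ t ∈ Finset.univ.erase s, q t) • B s).map zp =
        kd (fun _ => 1) fun s => ((∏ t ∈ Finset.univ.erase s, q t) • B s).map zp :=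
      (kd_map zpH fun s => (∏ t ∈ Finset.univ.erase s, q t) • B s).symm
    have h2 : (kd (fun _ => 1) N).map (fun x : ℤ => (x : PowerSeries ℚ)) =
        kd (fun _ => 1) fun s => (N s).map (fun x : ℤ => (x : PowerSeries ℚ)) :=
      (kd_map (Int.castRingHom (PowerSeries ℚ)) N).symm
    rw [dv_kr, h1, h2, ← kd_mul_left, ← kd_mul_right, ← kd_smul, ← kd_smul, ← kd_sub]
    congr 1
    funext s
    exact hode s

/-- SYS: symmetric squares and tensor products of systems -/
theorem sys : SysStmt := by
  refine ⟨?_, ?_⟩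
  · rintro r H ⟨K, N, q, B, h⟩
    exact ⟨sy K, ps N 1, q, ps B 1, gsys_sy h⟩
  · intro ι m _ _ _ _ H h
    choose K N q B h using h
    exact ⟨kr K, _, _, _, gsys_kr h⟩

end Pool.Agent.MT100.H83
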