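import Pool.Agent.MT100.StmtsP

/-! MT100-P, module ENS: the exponential of the shift. -/

set_option autoImplicit false

namespace Pool.Agent.MT100.H83

open Matrix Pool.Agent.MT100

theorem nsh_pow (r k : ℕ) (l i : Fin r) : (Nsh r ^ k) l i = if (l : ℕ) + k = i then 1 else 0 := by
  induction k generalizing l with
  | zero =>
    rw [pow_zero, Matrix.one_apply, add_zero]
    simp only [Fin.ext_iff]
  | succ k ih =>
    rw [pow_succ', Matrix.mul_apply]
    have h1 : ∀ j : Fin r, Nsh r l j * (Nsh r ^ k) j i =
        if (l : ℕ) + 1 = j then (if (j : ℕ) + k = i then (1 : ℤ) else 0) else 0 := by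
      intro j
      rw [ih]
      unfold Nsh
      split_ifs <;> simp
    rw [Finset.sum_congr rfl fun j _ => h1 j]
    by_cases hl : (l : ℕ) + 1 < r
    · rw [Finset.sum_eq_single (⟨(l : ℕ) + 1, hl⟩ : Fin r)]
      · rw [if_pos rfl]
        simp only
        have h2 : (l : ℕ) + 1 + k = i ↔ (l : ℕ) + (k + 1) = i := by omega
        simp only [h2]
      · intro j _ hj
        rw [if_neg]
        intro h
        exact hj (Fin.ext h.symm)
      · intro h
        exact absurd (Finset.mem_univ _) h
    · rw [Finset.sum_eq_zero]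
      · rw [if_neg]
        have := i.2
        omega
      · intro j _
        rw [if_neg]
        have := j.2
        omega

/-- ENS: the shift -/
theorem ens : EnsStmt := by
  intro r R _ _ x
  ext l i
  unfold eN en
  rw [Matrix.sum_apply, Fintype.card_fin]
  have h1 : ∀ j ∈ Finset.range r, ((((j.factorial : ℚ)⁻¹) • x ^ j) •
      (Nsh r ^ j).map (fun y : ℤ => (y : R))) l i =
      if (l : ℕ) + j = i then ((j.factorial : ℚ)⁻¹) • x ^ j else 0 := by
    intro j _
    rw [Matrix.smul_apply, Matrix.map_apply, nsh_pow]
    split_ifs <;> simp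
  rw [Finset.sum_congr rfl h1]
  by_cases h : l ≤ i
  · have h' : (l : ℕ) ≤ i := h
    rw [if_pos h, Finset.sum_eq_single ((i : ℕ) - l)]
    · rw [if_pos (by omega)]
    · intro j _ hj
      rw [if_neg]
      omega
    · intro h2
      exact absurd (Finset.mem_range.2 (by have := i.2; omega)) h2
  · have h' : ¬ (l : ℕ) ≤ i := h
    rw [if_neg h]
    exact Finset.sum_eq_zero fun j _ => if_neg (by omega)

end Pool.Agent.MT100.H83
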